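import Mathlib

/-! A weak tiling measure of a tile of `ℤ₄₀`, normalised by `μ 0 = 1`, which is not a convex
combination of tiling complements. -/

namespace Pool.Agent.Results.MP_78fb5d_an.Counter

variable {G : Type} [AddCommGroup G] [Fintype G] [DecidableEq G]

/-- `E ⊕ T = G`. -/
def Tiles (E T : Finset G) : Prop := ∀ x : G, ∃! p : G × G, p.1 ∈ E ∧ p.2 ∈ T ∧ x = p.1 + p.2

/-- `μ ≥ 0` and `1_E * μ = 1`. -/
def WeakTiling (E : Finset G) (μ : G → ℝ) : Prop :=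
  (∀ y, 0 ≤ μ y) ∧ ∀ x, ∑ y, (if x - y ∈ E then 1 else 0) * μ y = 1

/-- `μ` is a convex combination of counting measures of tiling complements of `E`. -/
def IsConvexComb (E : Finset G) (μ : G → ℝ) : Prop :=
  ∃ (N : ℕ) (T : Fin N → Finset G) (c : Fin N → ℝ), (∀ k, Tiles E (T k)) ∧ (∀ k, 0 ≤ c k) ∧
    ∑ k, c k = 1 ∧ ∀ y, μ y = ∑ k, c k * if y ∈ T k then 1 else 0

def E : Finset (ZMod 40) := {0, 2, 12, 30}
def T₀ : Finset (ZMod 40) := {0, 8, 16, 24, 32}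
def T₁ : Finset (ZMod 40) := {0, 8, 16, 24, 32, 1, 9, 17, 25, 33}
def S : Finset (ZMod 40) := {7, 9, 11, 13, 15, 27, 29, 31, 33, 35}
def w (y : ZMod 40) : ℕ := if y ∈ T₀ then 2 else if y ∈ S then 1 else 0

lemma conv : ∀ x : ZMod 40, ∑ y, (if x - y ∈ E then 1 else 0) * w y = 2 := by decide +kernel

lemma xor {T : Finset (ZMod 40)} (h : Tiles E T) (hT : ∀ y ∈ T, w y ≠ 0) (x a b : ZMod 40)
    (h1 : (∀ e ∈ E, w (x - e) ≠ 0 → x - e = a ∨ x - e = b) ∧ x - a ∈ E ∧ x - b ∈ E ∧ a ≠ b) :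
    a ∈ T ↔ b ∉ T := by
  obtain ⟨⟨e, t⟩, ⟨h2, h3, h4⟩, h5⟩ := h x
  constructor
  · intro ha hb
    have := (h5 (x - a, a) ⟨h1.2.1, ha, by simp⟩).trans (h5 (x - b, b) ⟨h1.2.2.1, hb, by simp⟩).symm
    exact h1.2.2.2 (Prod.mk.inj this).2
  · intro hb
    have e1 : x - e = t := by rw [h4]; simp
    rcases h1.1 e h2 (e1 ▸ hT t h3) with h6 | h6
    · rwa [← h6, e1]
    · exact absurd (by rwa [← h6, e1]) hb

theorem result : ∃ (M : ℕ) (_ : NeZero M) (E : Finset (ZMod M)) (μ : ZMod M → ℝ),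
    0 ∈ E ∧ (∃ T, Tiles E T) ∧ WeakTiling E μ ∧ μ 0 = 1 ∧ ¬ IsConvexComb E μ := by
  refine ⟨40, inferInstance, E, fun y => w y / 2, by decide, ⟨T₁, ?_⟩, ⟨fun y => by positivity,
    fun x => ?_⟩, by simp only [show w 0 = 2 from by decide]; norm_num, ?_⟩
  · have : ∀ x : ZMod 40, ∃ e ∈ E, x - e ∈ T₁ ∧ ∀ e' ∈ E, x - e' ∈ T₁ → e' = e := by decide +kernel
    intro x
    obtain ⟨e, h1, h2, h3⟩ := this x
    refine ⟨(e, x - e), ⟨h1, h2, by simp⟩, ?_⟩
    rintro ⟨a, b⟩ ⟨h4, h5, rfl⟩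
    obtain rfl := h3 a h4 (by simpa using h5)
    simp
  · have := congrArg (Nat.cast : ℕ → ℝ) (conv x)
    simp only [Nat.cast_sum, Nat.cast_mul, Nat.cast_ite, Nat.cast_one, Nat.cast_zero,
      Nat.cast_ofNat] at this
    simp only [← mul_div_assoc, ← Finset.sum_div]
    rw [this, div_self two_ne_zero]
  · rintro ⟨N, T, c, h1, h2, h3, h4⟩
    obtain ⟨k, hk⟩ : ∃ k, c k ≠ 0 := by
      by_contra h
      push Not at h
      simp [h] at h3
    have hT : ∀ y ∈ T k, w y ≠ 0 := fun y hy h => by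
      have h5 := h4 y
      simp only [h, Nat.cast_zero, zero_div] at h5
      have := (Finset.sum_eq_zero_iff_of_nonneg fun k _ => mul_nonneg (h2 k)
        (by split_ifs <;> simp)).mp h5.symm k (Finset.mem_univ _)
      simp [hy, hk] at this
    have a1 := xor (h1 k) hT 9 9 7 (by decide +kernel)
    have a2 := xor (h1 k) hT 11 11 9 (by decide +kernel)
    have a3 := xor (h1 k) hT 13 13 11 (by decide +kernel)
    have a4 := xor (h1 k) hT 15 15 13 (by decide +kernel)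
    have a5 := xor (h1 k) hT 17 27 15 (by decide +kernel)
    have a6 := xor (h1 k) hT 29 29 27 (by decide +kernel)
    have a7 := xor (h1 k) hT 19 7 29 (by decide +kernel)
    tauto

end Pool.Agent.Results.MP_78fb5d_an.Counter
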